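import Pool.Agent.Helper98.DE.St

/-!
# Project DE, module CNT: vertices of small degree
-/

set_option autoImplicit false

namespace Pool.Agent.Helper47.DE

open Pool.Agent.Helper98.DE
open Pool.Agent.Helper51.AJ (IsMinor Planar Apex ExMinor Con Tch)
open Pool.Agent.Helper12.NK (rst Kc cnt)
open Pool.Agent.Helper12.MA (dl Srv)

private theorem one {V : Type} [Fintype V] (f : V → ℕ) (c : ℕ) :
    (c : ℤ) * Fintype.card V - ∑ v, (f v : ℤ) ≤ ((∑ v, (c - f v) : ℕ) : ℤ) := by
  have h1 : (c : ℤ) * Fintype.card V - ∑ v, (f v : ℤ) = ∑ v : V, ((c : ℤ) - f v) := by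
    rw [Finset.sum_sub_distrib]
    simp [Finset.card_univ, mul_comm]
  rw [h1, Nat.cast_sum]
  refine Finset.sum_le_sum fun v _ => ?_
  omega

private theorem two {V : Type} [Fintype V] (f : V → ℕ) (c : ℕ) (z z' : V) (hz : z ≠ z') :
    (c : ℤ) * Fintype.card V - ∑ v, (f v : ℤ) + ((f z : ℤ) - c) + ((f z' : ℤ) - c) ≤
      ((∑ v, (c - f v) : ℕ) : ℤ) := by
  classical
  have h1 : (c : ℤ) * Fintype.card V - ∑ v, (f v : ℤ) = ∑ v : V, ((c : ℤ) - f v) := by
    rw [Finset.sum_sub_distrib]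
    simp [Finset.card_univ, mul_comm]
  rw [h1, Nat.cast_sum]
  have h2 : ∑ v ∈ ({z, z'} : Finset V), (((c - f v : ℕ) : ℤ) - ((c : ℤ) - f v)) ≤
      ∑ v : V, (((c - f v : ℕ) : ℤ) - ((c : ℤ) - f v)) := by
    refine Finset.sum_le_sum_of_subset_of_nonneg (Finset.subset_univ _) fun v _ _ => ?_
    omega
  rw [Finset.sum_pair hz, Finset.sum_sub_distrib] at h2
  omega

private theorem core {V : Type} [Fintype V] (G : SimpleGraph V) (c b : ℕ)
    (hc : 0 < c) (hn : 6 ≤ Fintype.card V) (hS : ∀ x y, G.Adj x y → ∃ s, Srv G s x y)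
    (hB : ∀ s x y, Srv G s x y → (∑ v, dg G v) + (b + 2 * c) ≤ c * Fintype.card V + 2 * dg G s) (hb6 : b ≤ 6) :
    b ≤ ∑ v, (c - dg G v) := by
  classical
  by_cases hE : ∃ x y, G.Adj x y
  · obtain ⟨x₀, y₀, h₀⟩ := hE
    obtain ⟨s₀, hs₀⟩ := hS x₀ y₀ h₀
    set Z : Finset V := Finset.univ.filter (fun s => ∃ x y, G.Adj x y ∧ Srv G s x y) with hZ
    have hZn : Z.Nonempty := ⟨s₀, by
      rw [hZ, Finset.mem_filter]
      exact ⟨Finset.mem_univ _, x₀, y₀, h₀, hs₀⟩⟩
    obtain ⟨z, hzZ, hzmin⟩ := Z.exists_min_image (fun v => dg G v) hZn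
    rw [hZ, Finset.mem_filter] at hzZ
    obtain ⟨_, x, y, hxy, hsrv⟩ := hzZ
    have hb1 := hB z x y hsrv
    have hb1' : (∑ v, (dg G v : ℤ)) + (b + 2 * c) ≤ c * Fintype.card V + 2 * dg G z := by
      exact_mod_cast hb1
    by_cases hD : dg G z ≤ c
    · have h1 := one (fun v => dg G v) c
      have h2 : (dg G z : ℤ) ≤ c := by exact_mod_cast hD
      have h3 : (b : ℤ) ≤ ((∑ v, (c - dg G v) : ℕ) : ℤ) := by
        linarith
      exact_mod_cast h3
    · push Not at hD
      have hne : (G.neighborSet z).Nonempty := by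
        by_contra h
        rw [Set.not_nonempty_iff_eq_empty] at h
        unfold dg at hD
        rw [h, Set.ncard_empty] at hD
        omega
      obtain ⟨w, hw⟩ := hne
      rw [SimpleGraph.mem_neighborSet] at hw
      obtain ⟨z', hz'⟩ := hS z w hw
      have hne' : z ≠ z' := fun h => hz'.1 h.symm
      have hmin := hzmin z' (by
        rw [hZ, Finset.mem_filter]
        exact ⟨Finset.mem_univ _, z, w, hw, hz'⟩)
      have h1 := two (fun v => dg G v) c z z' hne'
      have h2 : (dg G z : ℤ) ≤ dg G z' := by exact_mod_cast hmin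
      have h3 : (b : ℤ) ≤ ((∑ v, (c - dg G v) : ℕ) : ℤ) := by
        linarith
      exact_mod_cast h3
  · have h0 : ∀ v, dg G v = 0 := by
      intro v
      unfold dg
      have : G.neighborSet v = ∅ := by
        ext w
        simp only [SimpleGraph.mem_neighborSet, Set.mem_empty_iff_false, iff_false]
        exact fun h => hE ⟨v, w, h⟩
      rw [this, Set.ncard_empty]
    simp only [h0, Nat.sub_zero, Finset.sum_const, Finset.card_univ, smul_eq_mul]
    nlinarith

theorem hCNT : StCRI → StSVB → StCNT := by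
  intro hC hV V _ G hG
  obtain ⟨_, hn, hS⟩ := hC V G hG
  rw [Nat.card_eq_fintype_card] at hn
  refine ⟨?_, fun hT => ?_⟩
  · refine core G 6 4 (by norm_num) hn hS (fun s x y h => ?_) (by norm_num)
    have := (hV V G (by omega) s x y h).1
    omega
  · refine core G 4 2 (by norm_num) hn hS (fun s x y h => ?_) (by norm_num)
    have := (hV V G (by omega) s x y h).2 hT
    omega

end Pool.Agent.Helper47.DE
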